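import Mathlib
import Pool.Agent.K7.H63.EI.Fin
import Pool.Agent.Y827.GS.Qc
import Pool.Agent.TH899.UG.Qd

/-!
# A third of the slopes in every long window of intercepts

The equation `a p - b q = c` is the line of slope `b / a` and intercept `c / a`.

* Among any `T` slopes, near EVERY intercept, there are at least `5 T / 18` slopes all of whose quotients are slopes of
  equations with infinitely many prime solutions: for all positive integers `m_1, ..., m_T` there is `C` such that for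
  every integer `B` there is a set `S` of at least `5 T / 18` indices such that for all `i < j` in `S` there is a triple
  `(a, b, c)` of the question with the slope `b / a = m_j / m_i` and `|c - a B| ≤ C`, such that `a p - b q = c` has
  infinitely many prime solutions.
* If the pair `(a, b)` has the weight `1 / (a b)`, then for `ε > 0` and all large `X`, in EVERY window `[B, B + L]` of
  intercepts which is long in terms of `X` and `ε`, at least the proportion `1 / 3 - ε` of the coprime pairs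
  `a < b ≤ X`, and of the coprime pairs `b < a ≤ X`, is such that for a positive proportion of the constants `c` of the
  window the equation `a p - b q = c` has infinitely many prime solutions.

Used from the starting files: the coloured Maynard-Tao theorem in which more than `5 T / 18` of `T` classes of linear
forms are hit simultaneously (`Pool.Agent.Y827.GS.quarterG`, `Pool.Agent.TH899.UG.fourC`), and the construction of
`Pool.Agent.TH899.UG.PairB4`, which is extended to any number of slopes.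
-/

set_option autoImplicit false

namespace Pool.Agent.Results.MP_bf63dc_nt.EveryWindowOfIntercepts

open Finset Filter

/-- the hypotheses of the question -/
def Adm (a b : ℕ) (c : ℤ) : Prop :=
  1 ≤ a ∧ 1 ≤ b ∧ c ≠ 0 ∧ IsCoprime (a : ℤ) b ∧ IsCoprime (a : ℤ) c ∧ IsCoprime (b : ℤ) c ∧
    ¬ (Odd a ∧ Odd b ∧ Odd c)

/-- the hypotheses and the conclusion of the question; moreover, for every `η > 0` and arbitrarily
large `x` there are at least `x ^ (1 - η)` primes `q ≤ x` such that `a p - b q = c` with `p` prime -/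
def Good (a b : ℕ) (c : ℤ) : Prop :=
  Adm a b c ∧ {pq : ℕ × ℕ | pq.1.Prime ∧ pq.2.Prime ∧ (a : ℤ) * pq.1 - b * pq.2 = c}.Infinite ∧
    ∀ η : ℝ, 0 < η → ∃ᶠ x : ℝ in atTop, x ^ (1 - η) ≤
      ({q : ℕ | (q.Prime ∧ ∃ p : ℕ, p.Prime ∧ (a : ℤ) * p - b * q = c) ∧ (q : ℝ) ≤ x}.ncard : ℝ)

open Classical in
/-- the sum of the weights `1 / (a b)` of the coprime pairs `1 ≤ a, b ≤ X` with the property `P` -/
noncomputable def weight (X : ℕ) (P : ℕ → ℕ → Prop) : ℝ :=
  ∑ a ∈ Icc 1 X, ∑ b ∈ Icc 1 X, if Nat.Coprime a b ∧ P a b then 1 / ((a : ℝ) * b) else 0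

/-- the number of the constants `c` with `c / a ∈ [B, B + L]` for which `a p - b q = c` has many solutions -/
noncomputable def number (a b : ℕ) (B : ℤ) (L : ℕ) : ℕ :=
  {c : ℤ | (a : ℤ) * B ≤ c ∧ c ≤ a * (B + L) ∧ Good a b c}.ncard

theorem good_iff {a b : ℕ} {c : ℤ} (ha : 1 ≤ a) (hb : 1 ≤ b) : Good a b c ↔ Pool.Agent.K7.H63.EI.GC a b c := by
  constructor
  · rintro ⟨⟨-, -, h1, h2, h3, h4, h5⟩, -, h6⟩
    exact ⟨h1, h2, h3, h4, h5, h6⟩
  · rintro ⟨h1, h2, h3, h4, h5, h6⟩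
    refine ⟨⟨ha, hb, h1, h2, h3, h4, h5⟩, ?_, h6⟩
    have hB : Pool.Agent.H732R3.BigQ.Big
      {q : ℕ | q.Prime ∧ ∃ p : ℕ, p.Prime ∧ (a : ℤ) * p - (b : ℤ) * q = c} := h6
    apply Set.Infinite.of_image Prod.snd
    refine hB.infinite.mono ?_
    rintro q ⟨hq, p, hp, hpq⟩
    exact ⟨(p, q), ⟨hp, hq, hpq⟩, rfl⟩

theorem weight_eq (X : ℕ) (P : ℕ → ℕ → Prop) : weight X P = Pool.Agent.K7.H63.EI.wt X P := by
  classical
  unfold weight Pool.Agent.K7.H63.EI.wt
  rw [← Finset.sum_product', ← Finset.sum_filter, ← Finset.sum_filter]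
  apply Finset.sum_congr _ fun _ _ => rfl
  ext ⟨a, b⟩
  rw [mem_filter, mem_filter, mem_product, mem_Icc, mem_Icc, Pool.Agent.K7.H63.RT.mem_CP,
    Pool.Agent.K7.H63.RT.mem_V, Pool.Agent.K7.H63.RT.mem_V]
  simp only [Nat.coprime_one_right_iff, and_true]
  tauto

theorem result :
    (∀ T : ℕ, ∀ m : Fin T → ℕ, (∀ i, 1 ≤ m i) → ∃ C : ℕ, ∀ B : ℤ, ∃ S : Finset (Fin T), 5 * T ≤ 18 * S.card ∧
      ∀ i ∈ S, ∀ j ∈ S, i < j → ∃ (a b : ℕ) (c : ℤ), a * m j = b * m i ∧ |c - a * B| ≤ C ∧ Good a b c) ∧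
    ∀ ε : ℝ, 0 < ε → ∃ X₀ : ℕ, ∀ X : ℕ, X₀ ≤ X → ∃ δ : ℝ, 0 < δ ∧ ∃ L₀ : ℕ, ∀ B : ℤ, ∀ L : ℕ, L₀ ≤ L →
      (1 / 3 - ε) * weight X (fun a b => a < b) ≤ weight X (fun a b => a < b ∧ δ * L ≤ (number a b B L : ℝ)) ∧
      (1 / 3 - ε) * weight X (fun a b => b < a) ≤ weight X (fun a b => b < a ∧ δ * L ≤ (number a b B L : ℝ)) := by
  classical
  constructor
  · intro T m hm
    by_cases hT : 2 ≤ T
    · obtain ⟨K, hK, hQ⟩ := Pool.Agent.Y827.GS.quarterG T ((5 * T - 1) / 18) (by omega) (by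
        have h1 : 18 * ((5 * T - 1) / 18) < 5 * T := by omega
        have h2 : (18 : ℝ) * ((5 * T - 1) / 18 : ℕ) < 5 * T := by exact_mod_cast h1
        linarith)
      obtain ⟨C, hC⟩ := Pool.Agent.K7.H63.EI.slopesT hT hK (fun S => 5 * T ≤ 18 * S.card) (by
        intro a b ha hinj hadm
        obtain ⟨S, c, hS, hB⟩ := hQ a b ha hinj hadm
        exact ⟨S, c, by omega, hB⟩) m hm
      refine ⟨C, fun B => ?_⟩
      obtain ⟨S, hS, h⟩ := hC B
      refine ⟨S, hS, fun i hi j hj hij => ?_⟩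
      obtain ⟨a, b, c, h1, h2, h3, h4, h5, h6, h7, h8, h9, h10⟩ := h i hi j hj hij
      exact ⟨a, b, c, h3, h9, (good_iff h1 h2).2 ⟨h4, h5, h6, h7, h8, h10⟩⟩
    · refine ⟨0, fun B => ⟨univ, ?_, ?_⟩⟩
      · rw [card_univ, Fintype.card_fin]; omega
      · intro i _ j _ hij
        exfalso
        have := i.2
        have := j.2
        have h1 : i.1 < j.1 := hij
        omega
  · intro ε hε
    obtain ⟨K, hK, hQ⟩ := Pool.Agent.TH899.UG.fourC
    obtain ⟨X₀, H⟩ := Pool.Agent.K7.H63.EI.windows hK (fun a b ha hinj hadm => hQ a b ha hinj hadm)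
      (min ε (1 / 3)) (by positivity) (min_le_right _ _)
    refine ⟨X₀, fun X hX => ?_⟩
    obtain ⟨δ, hδ, L₀, H⟩ := H X hX
    refine ⟨δ, hδ, L₀, fun B L hL => ?_⟩
    have key : ∀ r : ℕ → ℕ → Prop, Pool.Agent.K7.H63.EI.Ord2 r →
        (1 / 3 - ε) * weight X r ≤ weight X (fun a b => r a b ∧ δ * L ≤ (number a b B L : ℝ)) := by
      intro r hr
      have h1 := H r hr B L hL
      rw [weight_eq, weight_eq]
      have h2 : (1 / 3 - ε) * Pool.Agent.K7.H63.EI.wt X r ≤ (1 / 3 - min ε (1 / 3)) * Pool.Agent.K7.H63.EI.wt X r := by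
        apply mul_le_mul_of_nonneg_right _ (Pool.Agent.K7.H63.EI.wt_nonneg _ _)
        have := min_le_left ε (1 / 3)
        linarith
      refine h2.trans (h1.trans ?_)
      unfold Pool.Agent.K7.H63.EI.wt
      apply Finset.sum_le_sum
      intro x hx
      obtain ⟨⟨h3, h4⟩, -⟩ := Pool.Agent.K7.H63.RT.mem_CP.1 hx
      have hx1 : 1 ≤ x.1 := (Pool.Agent.K7.H63.RT.mem_V.1 h3).1.1
      have hx2 : 1 ≤ x.2 := (Pool.Agent.K7.H63.RT.mem_V.1 h4).1.1
      have e : {c : ℤ | (x.1 : ℤ) * B ≤ c ∧ c ≤ x.1 * (B + L) ∧ Pool.Agent.K7.H63.EI.GC x.1 x.2 c} =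
          {c : ℤ | (x.1 : ℤ) * B ≤ c ∧ c ≤ x.1 * (B + L) ∧ Good x.1 x.2 c} := by
        ext c
        rw [Set.mem_ofPred_eq, Set.mem_ofPred_eq, good_iff hx1 hx2]
      split_ifs with h5 h6 h6
      · exact le_rfl
      · exfalso
        apply h6
        refine ⟨h5.1, ?_⟩
        unfold number
        rw [← e]
        exact h5.2
      · positivity
      · exact le_rfl
    exact ⟨key _ Pool.Agent.K7.H63.EI.ord_lt, key _ Pool.Agent.K7.H63.EI.ord_gt⟩

end Pool.Agent.Results.MP_bf63dc_nt.EveryWindowOfIntercepts
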