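import Mathlib
import Pool.Agent.K7.H63.TQ.Scale

/-!
# A quarter of all the equations `a p - b q = c`

Give the triple `(a, b, c)` the weight `1 / (a b c)`. There are absolute constants `X₀`, `C` such that in
every box `1 ≤ a, b ≤ X`, `1 ≤ c ≤ Y` with `X ≥ X₀` and `Y ≥ X ^ C` at least a quarter (by weight) of all the
triples which satisfy the hypotheses of the question are such that `a p - b q = c` has infinitely many prime
solutions, more precisely at least `x ^ (1 - η)` primes `q ≤ x` for arbitrarily large `x`, for every `η > 0`.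
This holds at every scale, for constants as large as the primes: for every `X ≥ X₀` and `η > 0`, for all large
`Z` and all `Y` with `X ^ C ≤ Y ≤ Z / (1000 X ^ 2)`, at least a quarter by weight of the triples of the box
which satisfy the hypotheses have at least `Z ^ (1 - η)` solutions with `q ∈ [Z / (1000 X), Z]`.
(Exchanging `a` and `b` replaces `c` by `-c`, so negative constants are covered as well.)

Proof. Two of any four classes of linear forms contain forms which are simultaneously prime many times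
(the coloured Maynard-Tao theorem with a constant below `4`, `Pool.Agent.TH899.UG.fourC` and
`Pool.Agent.TH899.UG.NW.exactW`, from the starting files). By Turan's theorem a third of the pairs of forms of
any family, all of whose quadruples have no fixed prime divisor, is good, for any probability measure on the
family. The family of the forms `m n + r`, `m ≤ X`, `r < m D`, `(r, 6 m) = 1`, weighted by `1 / m ^ 2` and
averaged over `D` with the weight `1 / D ^ 3`, is chosen such that the image of the measure on pairs of forms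
under `(m n + r, m' n + r') ↦ (m, m', m r' - m' r) / (m, m')` is close to the measure `1 / (a b c)`: the local
factors differ by `4 / 5` at the prime `3` and by little at the other primes.
-/

set_option autoImplicit false

namespace Pool.Agent.Results.MP_bf63dc_nt.QuarterOfTriples

open Finset Filter

/-- the hypotheses of the question -/
def Adm (a b : ℕ) (c : ℤ) : Prop :=
  1 ≤ a ∧ 1 ≤ b ∧ c ≠ 0 ∧ IsCoprime (a : ℤ) b ∧ IsCoprime (a : ℤ) c ∧ IsCoprime (b : ℤ) c ∧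
    ¬ (Odd a ∧ Odd b ∧ Odd c)

/-- the hypotheses and the conclusion of the question; moreover, for every `η > 0` and arbitrarily
large `x` there are at least `x ^ (1 - η)` primes `q ≤ x` such that `a p - b q = c` with `p` prime -/
def Good (a b : ℕ) (c : ℤ) : Prop :=
  Adm a b c ∧ {pq : ℕ × ℕ | pq.1.Prime ∧ pq.2.Prime ∧ (a : ℤ) * pq.1 - b * pq.2 = c}.Infinite ∧
    ∀ η : ℝ, 0 < η → ∃ᶠ x : ℝ in atTop, x ^ (1 - η) ≤
      ({q : ℕ | (q.Prime ∧ ∃ p : ℕ, p.Prime ∧ (a : ℤ) * p - b * q = c) ∧ (q : ℝ) ≤ x}.ncard : ℝ)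

/-- the number of the primes `q`, `y ≤ q ≤ x`, such that `a p - b q = c` with `p` prime -/
noncomputable def count (a b : ℕ) (c : ℤ) (y x : ℝ) : ℕ :=
  {q : ℕ | (q.Prime ∧ ∃ p : ℕ, p.Prime ∧ (a : ℤ) * p - b * q = c) ∧ y ≤ q ∧ (q : ℝ) ≤ x}.ncard

open Classical in
/-- the sum of the weights `1 / (a b c)` of the triples `(a, b, c)` with `1 ≤ a, b ≤ X`, `1 ≤ c ≤ Y` and
the property `P` -/
noncomputable def weight (X Y : ℕ) (P : ℕ → ℕ → ℤ → Prop) : ℝ :=
  ∑ a ∈ Icc 1 X, ∑ b ∈ Icc 1 X, ∑ c ∈ Icc 1 Y, if P a b (c : ℤ) then 1 / ((a : ℝ) * b * c) else 0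

theorem weight_eq (X Y : ℕ) (P : ℕ → ℕ → ℤ → Prop) (Q : ℕ × ℕ × ℕ → Prop) [DecidablePred Q]
    (h : ∀ a b c : ℕ, 1 ≤ a → 1 ≤ b → 1 ≤ c → (P a b (c : ℤ) ↔ Q (a, b, c))) :
    weight X Y P = ∑ T ∈ (Pool.Agent.K7.H63.TQ.Rg X 1 Y).filter Q, Pool.Agent.K7.H63.TQ.tt T := by
  unfold weight Pool.Agent.K7.H63.TQ.Rg
  rw [Finset.sum_filter, Finset.sum_product]
  apply Finset.sum_congr rfl
  intro a ha
  rw [Finset.sum_product]
  apply Finset.sum_congr rfl
  intro b hb
  apply Finset.sum_congr rfl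
  intro c hc
  have h1 := h a b c (mem_Icc.1 ha).1 (mem_Icc.1 hb).1 (mem_Icc.1 hc).1
  by_cases h2 : Q (a, b, c)
  · rw [if_pos (h1.2 h2), if_pos h2]; rfl
  · rw [if_neg (fun h3 => h2 (h1.1 h3)), if_neg h2]

theorem adm_iff (a b c : ℕ) (_ha : 1 ≤ a) (_hb : 1 ≤ b) (hc : 1 ≤ c) :
    Adm a b (c : ℤ) ↔ Pool.Agent.K7.H63.TQ.Ad (a, b, c) := by
  unfold Adm Pool.Agent.K7.H63.TQ.Ad Pool.Agent.K7.H63.TQ.AdmT
  rw [Nat.isCoprime_iff_coprime, Nat.isCoprime_iff_coprime, Nat.isCoprime_iff_coprime, Int.odd_coe_nat]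
  constructor
  · rintro ⟨h1, h2, -, h4, h5, h6, h7⟩
    exact ⟨h1, h2, hc, h4, h5, h6, h7⟩
  · rintro ⟨h1, h2, h3, h4, h5, h6, h7⟩
    exact ⟨h1, h2, by exact_mod_cast (by omega : c ≠ 0), h4, h5, h6, h7⟩

theorem good_of {a b : ℕ} {c : ℤ} (h : Adm a b c) (hB : Pool.Agent.H732R3.BigQ.Big
    {q : ℕ | q.Prime ∧ ∃ p : ℕ, p.Prime ∧ (a : ℤ) * p - (b : ℤ) * q = c}) : Good a b c := by
  refine ⟨h, ?_, hB⟩
  apply Set.Infinite.of_image Prod.snd
  refine hB.infinite.mono ?_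
  rintro q ⟨hq, p, hp, hpq⟩
  exact ⟨(p, q), ⟨hp, hq, hpq⟩, rfl⟩

theorem result : ∃ X₀ C : ℕ, ∀ X : ℕ, X₀ ≤ X →
    (∀ Y : ℕ, X ^ C ≤ Y → 1 / 4 * weight X Y Adm ≤ weight X Y Good) ∧
    ∀ η : ℝ, 0 < η → ∀ᶠ Z : ℕ in atTop, ∀ Y : ℕ, X ^ C ≤ Y → 1000 * X ^ 2 * Y ≤ Z →
      1 / 4 * weight X Y Adm ≤ weight X Y (fun a b c => Adm a b c ∧
        (Z : ℝ) ^ (1 - η) ≤ (count a b c (Z / (1000 * X)) Z : ℝ)) := by
  classical
  obtain ⟨X1, C1, hX1, H1⟩ := Pool.Agent.K7.H63.TQ.quarter_big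
  obtain ⟨X2, C2, hX2, H2⟩ := Pool.Agent.K7.H63.TQ.quarter_scale
  refine ⟨max X1 X2, max C1 C2, fun X hX => ⟨fun Y hY => ?_, fun η hη => ?_⟩⟩
  · have hX1' : X1 ≤ X := (le_max_left _ _).trans hX
    have hY1 : X ^ C1 ≤ Y := (Nat.pow_le_pow_right (by omega) (le_max_left _ _)).trans hY
    have h1 := H1 X hX1' Y hY1
    rw [weight_eq X Y Adm Pool.Agent.K7.H63.TQ.Ad (fun a b c ha hb hc => adm_iff a b c ha hb hc)]
    refine h1.trans ?_
    rw [weight_eq X Y Good (fun T => Pool.Agent.K7.H63.TQ.Ad T ∧ Good T.1 T.2.1 (T.2.2 : ℤ))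
      (fun a b c ha hb hc => ⟨fun h => ⟨(adm_iff a b c ha hb hc).1 h.1, h⟩, fun h => h.2⟩)]
    apply Finset.sum_le_sum_of_subset_of_nonneg
    · intro T hT
      obtain ⟨h2, h3, h4⟩ := mem_filter.1 hT
      refine mem_filter.2 ⟨h2, h3, ?_⟩
      have h5 : Adm T.1 T.2.1 (T.2.2 : ℤ) := (adm_iff T.1 T.2.1 T.2.2 h3.1 h3.2.1 h3.2.2.1).2 h3
      exact good_of h5 h4
    · intro T _ _; exact Pool.Agent.K7.H63.TQ.tt_nonneg T
  · have hX2' : X2 ≤ X := (le_max_right _ _).trans hX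
    filter_upwards [H2 X hX2' (min η 1) (by positivity) (min_le_right _ _), eventually_ge_atTop 1]
      with Z hZ hZ1 Y hY hYZ
    have hY2 : X ^ C2 ≤ Y := (Nat.pow_le_pow_right (by omega) (le_max_right _ _)).trans hY
    have h1 := hZ Y hY2 hYZ
    rw [weight_eq X Y Adm Pool.Agent.K7.H63.TQ.Ad (fun a b c ha hb hc => adm_iff a b c ha hb hc)]
    refine h1.trans ?_
    rw [weight_eq X Y _ (fun T => Pool.Agent.K7.H63.TQ.Ad T ∧
        (Z : ℝ) ^ (1 - η) ≤ (count T.1 T.2.1 (T.2.2 : ℤ) (Z / (1000 * X)) Z : ℝ))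
      (fun a b c ha hb hc => by
        show _ ∧ _ ↔ _ ∧ _
        rw [adm_iff a b c ha hb hc])]
    apply Finset.sum_le_sum_of_subset_of_nonneg
    · intro T hT
      obtain ⟨h2, h3, h4⟩ := mem_filter.1 hT
      refine mem_filter.2 ⟨h2, h3, ?_⟩
      have e : (Z : ℝ) / (1000 * X) = (Z : ℝ) / ((1000 * X : ℕ) : ℝ) := by push_cast; rfl
      rw [e]
      refine le_trans (Real.rpow_le_rpow_of_exponent_le (by exact_mod_cast hZ1) ?_) h4
      have := min_le_left η 1
      linarith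
    · intro T _ _; exact Pool.Agent.K7.H63.TQ.tt_nonneg T

end Pool.Agent.Results.MP_bf63dc_nt.QuarterOfTriples
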