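import Mathlib
import Pool.Agent.K7.H63.TC.Fin

/-!
# The formula of Hardy and Littlewood for `a p - b q = c`, for almost all `c` in very thin sets

For fixed coprime `a, b ≥ 1` the number of the prime solutions of `a p - b q = c` with `q ≤ X` satisfies the
asymptotic formula of Hardy and Littlewood for almost all elements `c` of an ARBITRARY set `A ⊆ [1, C X]` whose
additive energy of some order `h` is minimal up to a power of `log X` (such sets may have `X ^ θ` elements only, for
arbitrarily small `θ > 0`), and for almost all `c = c₀ + κ l`, `l ≤ X` composed of the primes of an arbitrary set `P` of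
at least `y ^ (1 / 2 + δ) log X` primes `≤ y`, where `y ≤ (log X) ^ C`.

Used: the estimates for exponential sums with the von Mangoldt function minus its model and the bilinear estimate of
`Pool.Agent.H373R2.T7`, the main term, the singular series and the passage to primes for linear forms of
`Pool.Agent.Y820.LF`, definitions and lemmas of `BoundedlyManyPowers` (all starting files), and the energy of the integers
composed of given primes `Pool.Agent.K7.H49.SM.Fam` (helper49).
-/

set_option autoImplicit false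

namespace Pool.Agent.Results.MP_bf63dc_nt.ThinSetsOfConstants

open Finset Filter

/-- `a, b, c` are pairwise relatively prime and not all odd, `a, b ≥ 1`. -/
def Ok (a b : ℕ) (c : ℤ) : Prop :=
  1 ≤ a ∧ 1 ≤ b ∧ Nat.Coprime a b ∧ IsCoprime (a : ℤ) c ∧ IsCoprime (b : ℤ) c ∧ (2 : ℤ) ∣ a * b * c

/-- The number of the prime solutions `(p, q)` of `a p - b q = c` with `q ≤ X`. -/
noncomputable def count (a b : ℕ) (c : ℤ) (X : ℕ) : ℕ :=
  Set.ncard {x : ℕ × ℕ | x.1.Prime ∧ x.2.Prime ∧ (a : ℤ) * x.1 - b * x.2 = c ∧ x.2 ≤ X}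

open Classical in
/-- The partial products of the singular series: the factor of a prime `p ≤ z` is `(1 - 1 / p) / (1 - 1 / p) ^ 2` if `p`
divides `a b c`, and `(1 - 2 / p) / (1 - 1 / p) ^ 2` otherwise. -/
noncomputable def sing (a b : ℕ) (c : ℤ) (z : ℕ) : ℝ :=
  ∏ p ∈ (Icc 1 z).filter Nat.Prime, (1 - (if (p : ℤ) ∣ a * b * c then 1 else 2) / (p : ℝ)) / (1 - 1 / (p : ℝ)) ^ 2

/-- The formula of Hardy and Littlewood, with a relative error of at most `ε`: the partial products of the singular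
series converge to some `G > 0`, and the number of the prime solutions with `q ≤ X` is `G X / (a log ^ 2 X)` up to the
factor `1 ± ε`. -/
def Formula (ε : ℝ) (a b : ℕ) (c : ℤ) (X : ℕ) : Prop :=
  ∃ G : ℝ, 0 < G ∧ Tendsto (sing a b c) atTop (nhds G) ∧
    |(count a b c X : ℝ) - G * (X / (a * Real.log X ^ 2))| ≤ ε * (G * (X / (a * Real.log X ^ 2)))

/-- The additive energy of order `h` of `A`: the number of the solutions of `s 1 + ... + s h = t 1 + ... + t h` in
elements of `A`. -/
def energy (h : ℕ) (A : Finset ℕ) : ℕ :=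
  ((Fintype.piFinset (fun _ : Fin h => A) ×ˢ Fintype.piFinset (fun _ : Fin h => A)).filter
    (fun q => ∑ i, q.1 i = ∑ i, q.2 i)).card

open Classical in
/-- The positive integers up to `X` all of whose prime factors belong to `P`. -/
noncomputable def composed (P : Finset ℕ) (X : ℕ) : Finset ℕ :=
  (Icc 1 X).filter (fun l => ∀ p : ℕ, p.Prime → p ∣ l → p ∈ P)

lemma composed_eq (P : Finset ℕ) (X : ℕ) : composed P X = Pool.Agent.K7.H49.SM.S P X := by
  classical
  ext l
  rw [Pool.Agent.K7.H49.SM.mem_S]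
  unfold composed
  rw [mem_filter, mem_Icc]
  constructor
  · rintro ⟨⟨h1, h2⟩, h3⟩
    refine ⟨h1, h2, fun p hp => ?_⟩
    exact h3 p (Nat.prime_of_mem_primeFactors hp) (Nat.dvd_of_mem_primeFactors hp)
  · rintro ⟨h1, h2, h3⟩
    refine ⟨⟨h1, h2⟩, fun p hp hpl => ?_⟩
    exact h3 (Nat.mem_primeFactors.2 ⟨hp, hpl, by omega⟩)

/-- Let `a, b ≥ 1` be coprime, `C`, `U` natural numbers and `ε > 0`.

* Let `h` be a natural number. For all large `X` and for EVERY set `A` of positive integers `c ≤ C X` whose additive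
  energy of order `h` is at most `(log X) ^ C |A| ^ (2 h) / X`, all but at most `|A| / (log X) ^ U` elements `c` of `A` have
  the property that, if `a, b, c` are pairwise coprime and not all odd, then the number of the prime solutions of
  `a p - b q = c` with `q ≤ X` satisfies the formula of Hardy and Littlewood with a relative error of at most `ε`.
* Let `δ > 0`. For all large `X`, for every `2 ≤ y ≤ (log X) ^ C`, EVERY set `P` of at least `y ^ (1 / 2 + δ) log X` primes
  `≤ y`, all integers `c₀ ≥ 0`, `κ ≥ 1` and all `Y` with `X ≤ Y ≤ X (log X) ^ C` and `c₀ + κ X ≤ C Y`, the same is true for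
  the constants `c = c₀ + κ l` and the solutions with `q ≤ Y`, for all but a proportion `(log Y) ^ (-U)` of the integers
  `l ≤ X` composed of primes of `P`. -/
theorem result (a b : ℕ) (ha : 1 ≤ a) (hb : 1 ≤ b) (hab : Nat.Coprime a b) (C U : ℕ) (ε : ℝ) (hε : 0 < ε) :
    (∀ h : ℕ, ∃ X₀ : ℕ, ∀ X : ℕ, X₀ ≤ X → ∀ A : Finset ℕ, (∀ c ∈ A, 1 ≤ c ∧ c ≤ C * X) →
      (energy h A : ℝ) * X ≤ Real.log X ^ C * (A.card : ℝ) ^ (2 * h) →
      ({c : ℕ | c ∈ A ∧ Ok a b c ∧ ¬ Formula ε a b c X}.ncard : ℝ) ≤ A.card / Real.log X ^ U) ∧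
    (∀ δ : ℝ, 0 < δ → ∃ X₀ : ℕ, ∀ X : ℕ, X₀ ≤ X → ∀ y : ℕ, 2 ≤ y → (y : ℝ) ≤ Real.log X ^ C →
      ∀ P : Finset ℕ, (∀ p ∈ P, p.Prime ∧ p ≤ y) → (y : ℝ) ^ (1 / 2 + δ) * Real.log X ≤ P.card →
      ∀ c₀ κ : ℕ, 1 ≤ κ → ∀ Y : ℕ, X ≤ Y → (Y : ℝ) ≤ X * Real.log X ^ C → c₀ + κ * X ≤ C * Y →
      ({l : ℕ | l ∈ composed P X ∧ Ok a b (c₀ + κ * l) ∧ ¬ Formula ε a b (c₀ + κ * l) Y}.ncard : ℝ) ≤
        (composed P X).card / Real.log Y ^ U) := by
  classical
  refine ⟨fun h => ?_, fun δ hδ => ?_⟩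
  · obtain ⟨X₀, hX₀⟩ := Pool.Agent.K7.H63.TC.thin a b ha hb hab h C U ε hε
    refine ⟨X₀, fun X hX A hA hE => ?_⟩
    refine le_trans (le_of_eq ?_) (hX₀ X hX A hA hE)
    rw [Nat.cast_inj, ← Set.ncard_coe_finset]
    congr 1
    ext c
    rw [mem_coe, mem_filter]
    rfl
  · obtain ⟨X₀, hX₀⟩ := Pool.Agent.K7.H63.TC.smooth a b ha hb hab C U δ ε hδ hε
    refine ⟨X₀, fun X hX y hy1 hy2 P hP hPc c₀ κ hκ Y hXY hYX hc => ?_⟩
    rw [composed_eq]
    refine le_trans (le_of_eq ?_) (hX₀ X hX y hy1 hy2 P hP hPc c₀ κ hκ Y hXY hYX hc)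
    rw [Nat.cast_inj, ← Set.ncard_coe_finset]
    congr 1
    ext l
    rw [mem_coe, mem_filter]
    rfl

end Pool.Agent.Results.MP_bf63dc_nt.ThinSetsOfConstants
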