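import Mathlib
import Pool.Agent.K7.H63.RT.Fin

/-!
# A third of the rationals are of the form `(q - h) / (p - h)`

Let `h ≠ 0` be an integer. For coprime `a ≠ b` prime to `h` the triple `(a, b, h (a - b))` satisfies the hypotheses of
the question, and `a p - b q = h (a - b)` means `a / b = (q - h) / (p - h)`. If `a / b` has the weight `1 / (a b)`, then
for every `ε > 0` and all large `X` at least the proportion `1 / 3 - ε` of these triples with `a, b ≤ X` have infinitely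
many prime solutions. The bound is uniform: it holds as soon as the harmonic sum over the integers `m ≤ X` prime to `h`
exceeds a constant `C` which depends on `ε` only; and it holds at every scale, for `h` as large as the primes: for all
large `Z` and all `h` with `1000 X |h| ≤ Z`, at least the proportion `1 / 3 - ε` of the triples have at least
`Z ^ (1 - η)` solutions with `q ∈ [Z / (1000 X), Z]`.

Used from the starting files: the coloured Maynard-Tao theorem with a constant below `4`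
(`Pool.Agent.TH899.UG.fourC`, `Pool.Agent.TH899.UG.NW.exactW`). It is applied to the forms `m n + h`, by means of
Turan's theorem for a probability measure on the forms.
-/

set_option autoImplicit false

namespace Pool.Agent.Results.MP_bf63dc_nt.ThirdOfRationals

open Finset Filter

/-- the hypotheses of the question -/
def Adm (a b : ℕ) (c : ℤ) : Prop :=
  1 ≤ a ∧ 1 ≤ b ∧ c ≠ 0 ∧ IsCoprime (a : ℤ) b ∧ IsCoprime (a : ℤ) c ∧ IsCoprime (b : ℤ) c ∧
    ¬ (Odd a ∧ Odd b ∧ Odd c)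

/-- the hypotheses and the conclusion of the question; moreover, for every `η > 0` and arbitrarily
large `x` there are at least `x ^ (1 - η)` primes `q ≤ x` such that `a p - b q = c` with `p` prime -/
def Good (a b : ℕ) (c : ℤ) : Prop :=
  Adm a b c ∧ {pq : ℕ × ℕ | pq.1.Prime ∧ pq.2.Prime ∧ (a : ℤ) * pq.1 - b * pq.2 = c}.Infinite ∧
    ∀ η : ℝ, 0 < η → ∃ᶠ x : ℝ in atTop, x ^ (1 - η) ≤
      ({q : ℕ | (q.Prime ∧ ∃ p : ℕ, p.Prime ∧ (a : ℤ) * p - b * q = c) ∧ (q : ℝ) ≤ x}.ncard : ℝ)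

/-- the number of the primes `q`, `y ≤ q ≤ x`, such that `a p - b q = c` with `p` prime -/
noncomputable def count (a b : ℕ) (c : ℤ) (y x : ℝ) : ℕ :=
  {q : ℕ | (q.Prime ∧ ∃ p : ℕ, p.Prime ∧ (a : ℤ) * p - b * q = c) ∧ y ≤ q ∧ (q : ℝ) ≤ x}.ncard

open Classical in
/-- the sum of the weights `1 / (a b)` of the pairs `a, b ≤ X` such that the triple `(a, b, h (a - b))` has the
property `P` -/
noncomputable def weight (h : ℤ) (X : ℕ) (P : ℕ → ℕ → ℤ → Prop) : ℝ :=
  ∑ a ∈ Icc 1 X, ∑ b ∈ Icc 1 X, if P a b (h * ((a : ℤ) - b)) then 1 / ((a : ℝ) * b) else 0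

open Classical in
/-- the sum of `1 / m` over the integers `1 ≤ m ≤ X` prime to `h` -/
noncomputable def harm (h : ℤ) (X : ℕ) : ℝ := ∑ m ∈ (Icc 1 X).filter (fun m : ℕ => IsCoprime (m : ℤ) h), 1 / (m : ℝ)

theorem cop_iff (m : ℕ) (h : ℤ) : IsCoprime (m : ℤ) h ↔ Nat.Coprime m h.natAbs := by
  rw [Int.isCoprime_iff_gcd_eq_one, Int.gcd, Int.natAbs_natCast]

theorem harm_eq (h : ℤ) (X : ℕ) : harm h X = Pool.Agent.K7.H63.RT.W h.natAbs X := by
  classical
  unfold harm Pool.Agent.K7.H63.RT.W Pool.Agent.K7.H63.RT.V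
  apply Finset.sum_congr _ fun _ _ => rfl
  ext m
  rw [mem_filter, mem_filter, cop_iff]

theorem adm_iff (a b : ℕ) (h : ℤ) (ha : 1 ≤ a) (hb : 1 ≤ b) (hh : h ≠ 0) :
    Adm a b (h * ((a : ℤ) - b)) ↔
      ((Nat.Coprime a h.natAbs ∧ Nat.Coprime b h.natAbs) ∧ Nat.Coprime a b) ∧ a ≠ b := by
  have e1 : IsCoprime (a : ℤ) (b : ℤ) → (IsCoprime (a : ℤ) (h * ((a : ℤ) - b)) ↔ IsCoprime (a : ℤ) h) := by
    intro hab
    rw [IsCoprime.mul_right_iff]
    constructor
    · exact fun h => h.1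
    · refine fun h => ⟨h, ?_⟩
      have h1 : IsCoprime (a : ℤ) (-(b : ℤ) + a * 1) := IsCoprime.add_mul_left_right hab.neg_right 1
      have h2 : (a : ℤ) - b = -(b : ℤ) + a * 1 := by ring
      rw [h2]; exact h1
  have e2 : IsCoprime (a : ℤ) (b : ℤ) → (IsCoprime (b : ℤ) (h * ((a : ℤ) - b)) ↔ IsCoprime (b : ℤ) h) := by
    intro hab
    rw [IsCoprime.mul_right_iff]
    constructor
    · exact fun h => h.1
    · refine fun h => ⟨h, ?_⟩
      have h1 : IsCoprime (b : ℤ) ((a : ℤ) + b * (-1)) := IsCoprime.add_mul_left_right hab.symm (-1)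
      have h2 : (a : ℤ) - b = (a : ℤ) + b * (-1) := by ring
      rw [h2]; exact h1
  unfold Adm
  constructor
  · rintro ⟨-, -, h3, h4, h5, h6, -⟩
    refine ⟨⟨⟨(cop_iff a h).1 ((e1 h4).1 h5), (cop_iff b h).1 ((e2 h4).1 h6)⟩, Nat.isCoprime_iff_coprime.1 h4⟩, ?_⟩
    intro hab
    apply h3
    rw [hab]; ring
  · rintro ⟨⟨⟨h1, h2⟩, h3⟩, h4⟩
    have h3' : IsCoprime (a : ℤ) (b : ℤ) := Nat.isCoprime_iff_coprime.2 h3
    refine ⟨ha, hb, ?_, h3', (e1 h3').2 ((cop_iff a h).2 h1), (e2 h3').2 ((cop_iff b h).2 h2), ?_⟩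
    · apply mul_ne_zero hh
      intro h5
      apply h4
      have : (a : ℤ) = b := by linarith
      exact_mod_cast this
    · rintro ⟨h5, h6, h7⟩
      rw [Int.odd_mul] at h7
      have h8 : Even ((a : ℤ) - b) := by
        apply Odd.sub_odd
        · exact_mod_cast h5
        · exact_mod_cast h6
      exact (Int.not_even_iff_odd.2 h7.2) h8

theorem weight_eq (h : ℤ) (hh : h ≠ 0) (X : ℕ) (P : ℕ → ℕ → ℤ → Prop) (Q : ℕ → ℕ → Prop)
    [∀ a b, Decidable (Q a b)]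
    (H : ∀ a b : ℕ, 1 ≤ a → 1 ≤ b → (P a b (h * ((a : ℤ) - b)) ↔ Adm a b (h * ((a : ℤ) - b)) ∧ Q a b)) :
    weight h X P = ∑ x ∈ Pool.Agent.K7.H63.RT.CP h.natAbs X, if x.1 ≠ x.2 ∧ Q x.1 x.2 then 1 / ((x.1 : ℝ) * x.2) else 0 := by
  classical
  unfold weight
  rw [← Finset.sum_product', ← Finset.sum_filter, ← Finset.sum_filter]
  apply Finset.sum_congr _ fun _ _ => rfl
  ext ⟨a, b⟩
  rw [mem_filter, mem_filter, mem_product, mem_Icc, mem_Icc, Pool.Agent.K7.H63.RT.mem_CP,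
    Pool.Agent.K7.H63.RT.mem_V, Pool.Agent.K7.H63.RT.mem_V]
  simp only
  constructor
  · rintro ⟨⟨h1, h2⟩, h3⟩
    have h4 := (H a b h1.1 h2.1).1 h3
    have h5 := (adm_iff a b h h1.1 h2.1 hh).1 h4.1
    exact ⟨⟨⟨⟨h1, h5.1.1.1⟩, h2, h5.1.1.2⟩, h5.1.2⟩, h5.2, h4.2⟩
  · rintro ⟨⟨⟨⟨h1, h2⟩, h3, h4⟩, h5⟩, h6, h7⟩
    exact ⟨⟨h1, h3⟩, (H a b h1.1 h3.1).2 ⟨(adm_iff a b h h1.1 h3.1 hh).2 ⟨⟨⟨h2, h4⟩, h5⟩, h6⟩, h7⟩⟩

theorem weight_adm (h : ℤ) (hh : h ≠ 0) (X : ℕ) : weight h X Adm ≤ Pool.Agent.K7.H63.RT.T h.natAbs X := by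
  classical
  rw [weight_eq h hh X Adm (fun _ _ => True) (fun a b _ _ => by rw [and_true])]
  unfold Pool.Agent.K7.H63.RT.T
  apply Finset.sum_le_sum
  intro x _
  split_ifs
  · exact le_rfl
  · positivity

theorem good_of {a b : ℕ} {c : ℤ} (h : Adm a b c) (hB : Pool.Agent.H732R3.BigQ.Big
    {q : ℕ | q.Prime ∧ ∃ p : ℕ, p.Prime ∧ (a : ℤ) * p - (b : ℤ) * q = c}) : Good a b c := by
  refine ⟨h, ?_, hB⟩
  apply Set.Infinite.of_image Prod.snd
  refine hB.infinite.mono ?_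
  rintro q ⟨hq, p, hp, hpq⟩
  exact ⟨(p, q), ⟨hp, hq, hpq⟩, rfl⟩

theorem result (ε : ℝ) (hε : 0 < ε) : ∃ C : ℝ,
    (∀ h : ℤ, h ≠ 0 → ∀ᶠ X : ℕ in atTop, C ≤ harm h X) ∧
    ∀ X : ℕ,
      (∀ h : ℤ, h ≠ 0 → C ≤ harm h X → (1 / 3 - ε) * weight h X Adm ≤ weight h X Good) ∧
      ∀ η : ℝ, 0 < η → ∀ᶠ Z : ℕ in atTop, ∀ h : ℤ, h ≠ 0 → 1000 * X * |h| ≤ Z → C ≤ harm h X →
        (1 / 3 - ε) * weight h X Adm ≤ weight h X (fun a b c => Adm a b c ∧
          (Z : ℝ) ^ (1 - η) ≤ (count a b c (Z / (1000 * X)) Z : ℝ)) := by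
  classical
  obtain ⟨C1, hC1, H1⟩ := Pool.Agent.K7.H63.RT.rat_big (min ε (1 / 3)) (by positivity) (min_le_right _ _)
  obtain ⟨C2, hC2, H2⟩ := Pool.Agent.K7.H63.RT.rat_scale (min ε (1 / 3)) (by positivity) (min_le_right _ _)
  have hmin : ∀ (h : ℤ) (X : ℕ), h ≠ 0 → (1 / 3 - ε) * weight h X Adm ≤
      (1 / 3 - min ε (1 / 3)) * Pool.Agent.K7.H63.RT.T h.natAbs X := by
    intro h X hh
    have h1 := weight_adm h hh X
    have h2 : 0 ≤ weight h X Adm := by
      unfold weight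
      apply Finset.sum_nonneg; intro _ _
      apply Finset.sum_nonneg; intro _ _
      split_ifs <;> positivity
    have h3 : 0 ≤ 1 / 3 - min ε (1 / 3) := by
      have := min_le_right ε (1 / 3)
      linarith
    calc (1 / 3 - ε) * weight h X Adm ≤ (1 / 3 - min ε (1 / 3)) * weight h X Adm := by
          apply mul_le_mul_of_nonneg_right _ h2
          have := min_le_left ε (1 / 3)
          linarith
      _ ≤ _ := mul_le_mul_of_nonneg_left h1 h3
  refine ⟨max C1 C2, ?_, fun X => ⟨fun h hh hC => ?_, fun η hη => ?_⟩⟩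
  · intro h hh
    filter_upwards [(Pool.Agent.K7.H63.RT.W_tendsto h.natAbs (by omega)).eventually_ge_atTop (max C1 C2)] with X hX
    rw [harm_eq]; exact hX
  · rw [harm_eq] at hC
    have h1 := H1 h X ((le_max_left _ _).trans hC)
    refine (hmin h X hh).trans (h1.trans (le_of_eq ?_))
    rw [weight_eq h hh X Good (fun a b => Pool.Agent.H732R3.BigQ.Big
        {q : ℕ | q.Prime ∧ ∃ p : ℕ, p.Prime ∧ (a : ℤ) * p - (b : ℤ) * q = h * (a - b)})
      (fun a b _ _ => ⟨fun hg => ⟨hg.1, hg.2.2⟩, fun hg => good_of hg.1 hg.2⟩)]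
    rfl
  · by_cases hX : 1 ≤ X
    · filter_upwards [H2 X hX (min η 1) (by positivity) (min_le_right _ _), eventually_ge_atTop 1]
        with Z hZ hZ1 h hh hZh hC
      rw [harm_eq] at hC
      have h1 := hZ h (by
        have h2 : ((1000 * X * h.natAbs : ℕ) : ℤ) ≤ Z := by
          push_cast
          exact hZh
        exact_mod_cast h2) ((le_max_right _ _).trans hC)
      refine (hmin h X hh).trans (h1.trans ?_)
      rw [weight_eq h hh X _ (fun a b => (Z : ℝ) ^ (1 - η) ≤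
          (count a b (h * ((a : ℤ) - b)) (Z / (1000 * X)) Z : ℝ)) (fun a b _ _ => Iff.rfl)]
      unfold Pool.Agent.K7.H63.RT.S
      apply Finset.sum_le_sum
      intro x _
      split_ifs with h3 h4 h4
      · exact le_rfl
      · exfalso
        apply h4
        refine ⟨h3.1, ?_⟩
        have e : (Z : ℝ) / (1000 * X) = (Z : ℝ) / ((1000 * X : ℕ) : ℝ) := by push_cast; rfl
        rw [e]
        refine le_trans (Real.rpow_le_rpow_of_exponent_le (by exact_mod_cast hZ1) ?_) h3.2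
        have := min_le_left η 1
        linarith
      · positivity
      · exact le_rfl
    · filter_upwards [] with Z h hh _ hC
      have h0 : X = 0 := by omega
      subst h0
      simp [weight]

end Pool.Agent.Results.MP_bf63dc_nt.ThirdOfRationals
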